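import Pool.Agent.W528.HB.Stm

/-!
# HB-TT: the Teichmueller character of a finite field with values in `PadicAlgCl c`
-/

set_option autoImplicit false

namespace Pool.Agent.W400.HB.TT

open Finset Polynomial
open Pool.Agent.W528.HB

theorem main : Pool.Agent.W528.HB.TT := by
  classical
  intro c _ k _ R res hRes L _ _ _ e
  obtain ⟨hR, hk⟩ := hRes
  set n := Fintype.card L - 1 with hn
  have hn0 : 0 < n := by
    have : 1 < Fintype.card L := Fintype.one_lt_card
    omega
  have : NeZero n := ⟨hn0.ne'⟩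
  have : NeZero ((n : ℕ) : PadicAlgCl c) := ⟨by
    have : (n : ℚ_[c]) ≠ 0 := by exact_mod_cast hn0.ne'
    intro h
    apply this
    have h2 : algebraMap ℚ_[c] (PadicAlgCl c) (n : ℚ_[c]) = algebraMap ℚ_[c] (PadicAlgCl c) 0 := by
      rw [map_natCast, map_zero]; exact h
    exact (algebraMap ℚ_[c] (PadicAlgCl c)).injective h2⟩
  obtain ⟨Ω, hΩ⟩ := HasEnoughRootsOfUnity.exists_primitiveRoot (PadicAlgCl c) n
  have hΩR : Ω ∈ R := by
    rw [hR]
    have h1 : ‖Ω‖ ^ n = 1 := by rw [← norm_pow, hΩ.pow_eq_one, norm_one]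
    exact (pow_eq_one_iff_of_nonneg (norm_nonneg _) hn0.ne').1 h1 |>.le
  have hΩ' : IsPrimitiveRoot (⟨Ω, hΩR⟩ : R) n :=
    IsPrimitiveRoot.of_map_of_injective (f := R.subtype) hΩ Subtype.val_injective
  have hX := X_pow_sub_one_eq_prod hn0 hΩ'
  -- generator
  obtain ⟨g, hg⟩ := IsCyclic.exists_generator (α := Lˣ)
  have hgo : orderOf g = n := by
    rw [orderOf_eq_card_of_forall_mem_zpowers hg, Nat.card_eq_fintype_card, Fintype.card_units]
  have hgn : (e (g : L)) ^ n = 1 := by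
    rw [← map_pow, ← Units.val_pow_eq_pow_val, ← hgo, pow_orderOf_eq_one, Units.val_one, map_one]
  obtain ⟨ζ, hζ, hζe⟩ : ∃ ζ ∈ nthRootsFinset n (1 : R), e (g : L) = res ζ := by
    have h1 := congrArg (fun P : R[X] => (P.map res).eval (e (g : L))) hX
    simp only [Polynomial.map_sub, Polynomial.map_pow, Polynomial.map_X, Polynomial.map_one,
      Polynomial.eval_sub, Polynomial.eval_pow, Polynomial.eval_X, Polynomial.eval_one, hgn,
      sub_self, Polynomial.map_prod, Polynomial.eval_prod, Polynomial.map_C,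
      Polynomial.eval_C] at h1
    obtain ⟨ζ, h2, h3⟩ := Finset.prod_eq_zero_iff.1 h1.symm
    exact ⟨ζ, h2, sub_eq_zero.1 h3⟩
  have hζn : ζ ^ n = 1 := (mem_nthRootsFinset hn0 (1 : R)).1 hζ
  have hζn' : (ζ : PadicAlgCl c) ^ n = 1 := by
    have := congrArg (fun x : R => (x : PadicAlgCl c)) hζn
    simpa using this
  set g' : (PadicAlgCl c)ˣ := Units.ofPowEqOne (ζ : PadicAlgCl c) n hζn' hn0.ne' with hg'
  have hg'v : (g' : PadicAlgCl c) = ζ := rfl
  have hord : orderOf g' ∣ orderOf g := by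
    rw [hgo]
    apply orderOf_dvd_of_pow_eq_one
    exact Units.pow_ofPowEqOne hζn' hn0.ne'
  set f := monoidHomOfForallMemZpowers hg hord with hf
  have hfg : f g = g' := monoidHomOfForallMemZpowers_apply_gen hg hord
  refine ⟨MulChar.ofUnitHom f, ?_⟩
  intro y
  by_cases hy : y = 0
  · subst hy
    have h0 : (MulChar.ofUnitHom f) (0 : L) = 0 := MulChar.map_nonunit _ not_isUnit_zero
    refine ⟨by rw [h0]; exact R.zero_mem, ?_⟩
    rw [map_zero e]
    have : (⟨(MulChar.ofUnitHom f) (0 : L), by rw [h0]; exact R.zero_mem⟩ : R) = 0 :=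
      Subtype.ext h0
    rw [this, map_zero]
  · obtain ⟨j, hj⟩ := (Submonoid.mem_powers_iff _ _).1
      ((mem_powers_iff_mem_zpowers).2 (hg (Units.mk0 y hy)))
    have hyv : y = ((g ^ j : Lˣ) : L) := by
      rw [hj]; rfl
    have hw : (MulChar.ofUnitHom f) y = ((ζ ^ j : R) : PadicAlgCl c) := by
      rw [hyv, MulChar.ofUnitHom_coe, map_pow, hfg]
      push_cast
      rw [hg'v]
    refine ⟨by rw [hw]; exact (ζ ^ j).2, ?_⟩
    have : (⟨(MulChar.ofUnitHom f) y, by rw [hw]; exact (ζ ^ j).2⟩ : R) = ζ ^ j :=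
      Subtype.ext hw
    rw [this, map_pow, ← hζe, hyv]
    push_cast
    rw [map_pow]

end Pool.Agent.W400.HB.TT

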